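import Pool.Agent.Helper83.RB.St

set_option autoImplicit false

namespace Pool.Agent.Helper13.RB

open Pool.Agent.Helper83.RB

lemma ev_append {r : ℕ} {B : Type} [Monoid B] (y : Fin r → B) (a b : List (Fin r)) :
    ev y (a ++ b) = ev y a * ev y b := by
  simp [ev]

lemma ev_flat {r : ℕ} {B : Type} [Monoid B] (y : Fin r → B) (k : ℕ) (u : List (Fin r)) :
    ev y (List.replicate k u).flatten = ev y u ^ k := by
  induction k with
  | zero => simp [ev]
  | succ k ih =>
    rw [List.replicate_succ, List.flatten_cons, ev_append, ih, pow_succ']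

lemma ev_units {r : ℕ} {B : Type} [Monoid B] (h : Fin r → Bˣ) (u : List (Fin r)) :
    ev (fun i => (h i : B)) u = ((ev h u : Bˣ) : B) := by
  induction u with
  | nil => simp [ev]
  | cons a u ih =>
    have h1 : ev (fun i => (h i : B)) (a :: u) = (h a : B) * ev (fun i => (h i : B)) u := by
      simp [ev]
    have h2 : ev h (a :: u) = h a * ev h u := by simp [ev]
    rw [h1, h2, ih, Units.val_mul]

lemma ev_mem {r : ℕ} {G : Type} [Group G] (h : Fin r → G) (u : List (Fin r)) :
    ev h u ∈ Subgroup.closure (Set.range h) := by
  unfold ev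
  apply Subgroup.list_prod_mem
  intro x hx
  rw [List.mem_map] at hx
  obtain ⟨i, -, rfl⟩ := hx
  exact Subgroup.subset_closure ⟨i, rfl⟩

lemma exists_ev {r : ℕ} {G : Type} [Group G] (p : ℕ) (hp : 1 ≤ p) (h : Fin r → G)
    (hex : ∀ g ∈ Subgroup.closure (Set.range h), g ^ p = 1) :
    ∀ g ∈ Subgroup.closure (Set.range h), ∃ w : List (Fin r), g = ev h w := by
  intro g hg
  induction hg using Subgroup.closure_induction with
  | mem x hx =>
    obtain ⟨i, rfl⟩ := hx
    exact ⟨[i], by simp [ev]⟩
  | one => exact ⟨[], by simp [ev]⟩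
  | mul x y _ _ hx hy =>
    obtain ⟨a, rfl⟩ := hx
    obtain ⟨b, rfl⟩ := hy
    exact ⟨a ++ b, (ev_append h a b).symm⟩
  | inv x hx0 hx =>
    obtain ⟨a, rfl⟩ := hx
    refine ⟨(List.replicate (p - 1) a).flatten, ?_⟩
    rw [ev_flat]
    have h1 := hex _ hx0
    have h2 : ev h a ^ (p - 1) * ev h a = 1 := by
      rw [← pow_succ, Nat.sub_add_cancel hp, h1]
    exact (eq_inv_of_mul_eq_one_left h2).symm

theorem hSPN (hSHW : StSHW) (hRWR : StRWR) : StSPN := by
  intro p r d hpf hd
  have hp1 : 1 ≤ p := hpf.out.one_lt.le
  obtain ⟨N, hN⟩ := hSHW r d p hd hp1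
  classical
  let W : Finset (List (Fin r)) := (List.finite_length_lt (Fin r) N).toFinset
  refine ⟨W.card, ?_⟩
  intro B _ _ hPI h hex
  let y : Fin r → B := fun i => (h i : B)
  refine ⟨W.image (ev y), Finset.card_image_le, ?_⟩
  have hclaim : ∀ n : ℕ, ∀ w : List (Fin r), w.length = n →
      ev y w ∈ Submodule.span (ZMod p) ((W.image (ev y) : Finset B) : Set B) := by
    intro n
    induction n using Nat.strong_induction_on with
    | _ n ih =>
      by_cases hn : n < N
      · intro w hw
        apply Submodule.subset_span
        rw [Finset.mem_coe, Finset.mem_image]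
        refine ⟨w, ?_, rfl⟩
        rw [Set.Finite.mem_toFinset]
        show w.length < N
        omega
      · apply hRWR p d r n B hPI y
        intro w hw
        rcases hN w (by omega) with ⟨l, u, t, hu, hw2⟩ | hD
        · left
          have hpos : 0 < u.length := List.length_pos_iff.mpr hu
          have hlen : (l ++ t).length < n := by
            have h3 : w.length = l.length + p * u.length + t.length := by
              rw [hw2]; simp [add_assoc]
            rw [List.length_append]
            have : 1 ≤ p * u.length := Nat.mul_pos hp1 hpos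
            omega
          have h4 : ev y w = ev y (l ++ t) := by
            rw [hw2, ev_append, ev_append, ev_flat, ev_append]
            have h5 : ev y u ^ p = 1 := by
              have h6 : ev y u = ((ev h u : Bˣ) : B) := ev_units h u
              rw [h6, ← Units.val_pow_eq_pow_val, hex _ (ev_mem h u), Units.val_one]
            rw [h5, mul_one]
          rw [h4]
          exact ih _ hlen _ rfl
        · right; exact hD
  intro g hg
  obtain ⟨w, rfl⟩ := exists_ev p hp1 h hex g hg
  have := hclaim w.length w rfl
  rwa [show ev y w = ((ev h w : Bˣ) : B) from ev_units h w] at this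

end Pool.Agent.Helper13.RB
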